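import Pool.Agent.Q95.SN.Len

/-!
# A plane domain with a weak `(1, ∞)`-Poincaré inequality which is not quasiconvex

The domain is a thin corridor `x < 0`, `f(x) < y < f(x) + w(x)`. On the block
`[-32(n+1)², -32(n+1)² + 2π]` the function `f` is the lacunary sum
`(1/64) ∑_{i=1}^{n+1} B^(-i) (1 - cos(Bⁱ(x + 32(n+1)²)))` with `B = 64(n+1)`, elsewhere `f = 0`, and
`w(x) = exp(-1000 e^(-2x))`. The slopes of `f` over two adjacent intervals of comparable length differ by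
at most `1`, although the length of the graph over the `n`-th block is at least of order `√n`. Hence the
distance from a point to the points of the graph on its right grows at a definite rate, and almost all of
the mass of a ball of radius `r` lies within distance `O(r)`, measured along the corridor, from its right
end.
-/

set_option autoImplicit false

namespace Pool.Agent.Results.MP_dc21ba_an.ThinCorridor

open Set MeasureTheory Metric
open scoped ENNReal NNReal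

/-- `g` is an upper gradient of `u` in `Ω`: `|u(γ(a)) - u(γ(b))| ≤ ∫_γ g ds` for all Lipschitz curves
`γ : [a, b] → Ω`, where `∫_γ g ds = ∫_a^b g(γ(t)) |γ'(t)| dt`. (Every rectifiable curve has a Lipschitz
parametrisation, by arc length.) -/
def IsUpperGradient {n : ℕ} (Ω : Set (EuclideanSpace ℝ (Fin n))) (u : EuclideanSpace ℝ (Fin n) → ℝ)
    (g : EuclideanSpace ℝ (Fin n) → ℝ≥0∞) : Prop :=
  ∀ (γ : ℝ → EuclideanSpace ℝ (Fin n)) (a b : ℝ) (K : ℝ≥0), a ≤ b →
    LipschitzOnWith K γ (Icc a b) → (∀ t ∈ Icc a b, γ t ∈ Ω) →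
      ‖u (γ a) - u (γ b)‖ₑ ≤ ∫⁻ t in Icc a b, g (γ t) * ‖deriv γ t‖ₑ

/-- The weak `(1, ∞)`-Poincaré inequality for `Ω`: there are constants `C > 0` and `lam ≥ 1` such that
`∫_B |u - u_B| ≤ C r ‖g‖_{L^∞(lam B)} |B|` for all balls `B = B(x, r) ∩ Ω`, all `u ∈ L¹_loc(Ω)` and all
Borel upper gradients `g` of `u`. -/
def WeakPoincare {n : ℕ} (Ω : Set (EuclideanSpace ℝ (Fin n))) : Prop :=
  ∃ C : ℝ, 0 < C ∧ ∃ lam : ℝ, 1 ≤ lam ∧ ∀ x ∈ Ω, ∀ r : ℝ, 0 < r →
    ∀ u : EuclideanSpace ℝ (Fin n) → ℝ, LocallyIntegrableOn u Ω →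
      ∀ g : EuclideanSpace ℝ (Fin n) → ℝ≥0∞, Measurable g → IsUpperGradient Ω u g →
        ∫⁻ y in ball x r ∩ Ω, ‖u y - ⨍ z in ball x r ∩ Ω, u z‖ₑ ≤
          ENNReal.ofReal (C * r) * essSup g (volume.restrict (ball x (lam * r) ∩ Ω)) *
            volume (ball x r ∩ Ω)

/-- `Ω` is quasiconvex: any two of its points `x`, `y` are joined by a curve in `Ω` of length at most
`K |x - y|`, `K` independent of the points. -/
def Quasiconvex {n : ℕ} (Ω : Set (EuclideanSpace ℝ (Fin n))) : Prop :=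
  ∃ K : ℝ, ∀ x ∈ Ω, ∀ y ∈ Ω, ∃ γ : ℝ → EuclideanSpace ℝ (Fin n), ContinuousOn γ (Icc 0 1) ∧
    γ 0 = x ∧ γ 1 = y ∧ (∀ t ∈ Icc (0 : ℝ) 1, γ t ∈ Ω) ∧
      eVariationOn γ (Icc 0 1) ≤ ENNReal.ofReal (K * dist x y)

/-- **There is a plane domain which supports a weak `(1, ∞)`-Poincaré inequality and is not
quasiconvex.** -/
theorem result : ∃ Ω : Set (EuclideanSpace ℝ (Fin 2)), IsOpen Ω ∧ IsConnected Ω ∧ WeakPoincare Ω ∧
    ¬ Quasiconvex Ω := by
  refine ⟨Pool.Agent.Q95.SN.Om, Pool.Agent.Q95.SN.isOpen_Om, Pool.Agent.Q95.SN.isConnected_Om,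
    ⟨13, by norm_num, 5, by norm_num, fun x hx r hr u hu g hg hug =>
      Pool.Agent.Q95.SN.pi_main hx hr u hu g hg hug⟩, ?_⟩
  rintro ⟨K, hK⟩
  exact Pool.Agent.Q95.SN.not_quasiconvex K hK

end Pool.Agent.Results.MP_dc21ba_an.ThinCorridor
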